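import Pool.Agent.H853.EL.Fin
import Pool.Graph.R_seed8.W522.C.C7

/-!
# Families of elements of maximal rank
-/

set_option autoImplicit false
set_option linter.unusedSectionVars false

namespace Pool.Agent.H853.EL

open Module Polynomial Pool.Agent.Y114.TF Pool.Agent.Y114.GF Pool.Agent.Y114.MU
  Pool.Agent.Y114.RM Pool.Agent.H204R3.GP Pool.Agent.NH34.BD Pool.Agent.H853.SR
  Pool.Agent.H853.OS Pool.Agent.K1H15.BS Pool.Agent.H853.CC Pool.Agent.H853.G2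
  Pool.Agent.W522.C Pool.Agent.W569.FM Pool.Agent.W571.FM Pool.Agent.Y115.R Pool.Agent.Y115.T
  Pool.Agent.Y115.Chi

variable {Γ : Type} [Group Γ] [TopologicalSpace Γ] [IsTopologicalGroup Γ] [CompactSpace Γ]
  {ι : Type} [Fintype ι] [DecidableEq ι] {n : ι → ℕ}
  {ρ : ∀ (ℓ : ℕ) [Fact ℓ.Prime], Reps Γ n ℓ} {𝔤 : ∀ (ℓ : ℕ) [Fact ℓ.Prime], EndSpace n ℓ}

/-- The complex conjugation is elliptic. -/
theorem exists_conj (e : Element ρ)
    (hpure : ∀ i, ∃ c : ℝ, ∀ z : ℂ, aeval z (e.P i) = 0 → ‖z‖ ^ 2 = c) :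
    ∃ τ : AG e.field, EllipticIn e.P τ ∧
      ∀ x : e.field, ((τ x : e.field) : ℂ) = (starRingEnd ℂ) (x : ℂ) := by
  obtain ⟨hfin, hgal⟩ := field_galois e
  obtain ⟨τ, hτ⟩ := Pool.Agent.H853.OP.exists_restrict e.field hgal (algebraMap e.field ℂ)
    (Complex.conjAe.toRingEquiv : ℂ ≃+* ℂ)
  refine ⟨τ, ⟨2, two_pos, fun i x y hx hy hx0 hy0 => ⟨1, one_pos, ?_⟩⟩, fun x => (hτ x).symm⟩
  obtain ⟨c, hc⟩ := hpure i
  have h1 := hc x hx
  have h2 := hc y hy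
  have h3 : ((τ (x / y) : e.field) : ℂ) = (starRingEnd ℂ) ((x / y : e.field) : ℂ) := (hτ (x / y)).symm
  rw [pow_one]
  apply Subtype.ext
  have h4 : ((normIter τ 2 (x / y) : e.field) : ℂ) =
      ((x / y : e.field) : ℂ) * ((τ (x / y) : e.field) : ℂ) := by
    unfold normIter
    rw [Finset.prod_range_succ, Finset.prod_range_one]
    rfl
  have h5 : ((x / y : e.field) : ℂ) = (x : ℂ) / (y : ℂ) := rfl
  have hy1 : ‖(y : ℂ)‖ ≠ 0 := by
    rw [norm_ne_zero_iff]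
    intro h
    exact hy0 (Subtype.ext h)
  have h6 : ‖(x : ℂ)‖ ^ 2 = ‖(y : ℂ)‖ ^ 2 := h1.trans h2.symm
  change ((normIter τ 2 (x / y) : e.field) : ℂ) = 1
  rw [h4, h3, Complex.mul_conj, Complex.normSq_eq_norm_sq, h5, norm_div, div_pow, h6,
    div_self (pow_ne_zero 2 hy1), Complex.ofReal_one]

theorem finrank_field_le (e : Element ρ) : finrank ℚ e.field ≤ (∑ i, n i).factorial := by
  obtain ⟨hfin, hgal⟩ := field_galois e
  have h4 : Nat.card (AG e.field) = Module.finrank ℚ e.field :=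
    @IsGalois.card_aut_eq_finrank ℚ _ e.field _ (IntermediateField.algebra' e.field) hfin hgal
  rw [← h4]
  have h5 : FiniteDimensional ℚ
    (IntermediateField.adjoin ℚ {z : ℂ | ∃ i, aeval z (e.P i) = 0}) := hfin
  have h6 := gsz_field_le e.P (ne_zero_of_char e.charpoly)
  rw [Finset.sum_congr rfl fun i _ => natDegree_P e i] at h6
  exact h6

/-- The elements of `𝒲` are pure on each summand (all complex roots of `P i` have the same absolute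
value), `E` is a finite Galois extension of `ℚ`, and for every number field `M ⊆ ℂ` the field of some
member of `𝒲` meets `M` inside `E`. -/
structure PureFamily (𝒲 : Set (Element ρ)) (E : IntermediateField ℚ ℂ) : Prop where
  pure : ∀ e ∈ 𝒲, ∀ i, ∃ c : ℝ, ∀ z : ℂ, aeval z (e.P i) = 0 → ‖z‖ ^ 2 = c
  finiteDimensional : FiniteDimensional ℚ E
  galois : @IsGalois ℚ _ E _ (IntermediateField.algebra' E)
  core : ∀ M : IntermediateField ℚ ℂ, FiniteDimensional ℚ M → ∃ e ∈ 𝒲, e.field ⊓ M ≤ E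

theorem density_core (hρ : ∀ (ℓ : ℕ) [Fact ℓ.Prime], Conts (ρ ℓ))
    (h𝔤 : ∀ (ℓ : ℕ) [Fact ℓ.Prime], Motivic (ρ ℓ) (𝔤 ℓ)) (r : ℕ)
    (hrk : ∀ (ℓ : ℕ) [Fact ℓ.Prime], HasRankLE (𝔤 ℓ) r) (𝒲 : Set (Element ρ))
    (h𝒲 : ∀ e ∈ 𝒲, IndependentRoots r e.P) (E : IntermediateField ℚ ℂ)
    (hcore : PureFamily 𝒲 E) : GoodForDensity ρ 𝔤 (1 / finrank ℚ E) := by
  have hSF : ∀ w : Element ρ, ∃ (Q : ι → ℤ[X]) (b : ι → ℤ), (∀ i, b i ≠ 0) ∧
      (∀ i, (Q i).map (algebraMap ℤ ℚ) = b i • w.P i) ∧ (∏ i, Q i) ≠ 0 ∧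
      w.field = SF (∏ i, Q i) := fun w => exists_SF w.P (ne_zero_of_char w.charpoly)
  choose Q b hb hQ hQ0 hfield using hSF
  have h1 := density_family (J := 𝒲) (fun w => ∏ i, Q w.1 i) (fun w => w.1.bad) E
    hcore.finiteDimensional hcore.galois
    (B := (∑ i, n i).factorial) (fun w => by rw [← hfield]; exact finrank_field_le w.1)
    (fun M hM => by
      obtain ⟨w, hw, h2⟩ := hcore.core M hM
      exact ⟨⟨w, hw⟩, by rw [← hfield]; exact h2⟩)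
  refine h1.mono ?_
  rintro ℓ hℓ ⟨h2, w, hw, ι', σ, hσ⟩
  have : Fact ℓ.Prime := ⟨h2⟩
  refine ⟨this, ?_⟩
  have hP0 := ne_zero_of_char w.1.charpoly
  obtain ⟨τ, hτ, hconj⟩ := exists_conj w.1 (hcore.pure w.1 w.2)
  have hle : w.1.field ≤ SF (∏ i, Q w.1 i) := (hfield w.1).le
  let inc : w.1.field →+* SF (∏ i, Q w.1 i) :=
    (w.1.field).val.toRingHom.codRestrict (SF (∏ i, Q w.1 i)) fun x => hle x.2
  have hinc : ∀ x : w.1.field, ((inc x : SF (∏ i, Q w.1 i)) : ℂ) = x := fun x => rfl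
  refine good_elliptic (ρ ℓ) (hρ ℓ) (𝔤 ℓ) (h𝔤 ℓ) w.1.γ r
    (hasRank_of hP0 (w.1.charpoly ℓ hw) (h𝒲 w.1 w.2)) (hrk ℓ) σ
    (elliptic_of_lift w.1 hP0 hτ hw (ι'.comp inc) σ fun x => ?_)
  have h3 : conjSF (∏ i, Q w.1 i) (inc x) = inc (τ x) := by
    apply Subtype.ext
    rw [hinc, hconj, conjSF_apply]
    rfl
  rw [RingHom.comp_apply, RingHom.comp_apply, hσ, h3]

end Pool.Agent.H853.EL
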