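import Pool.Agent.H853.EL.Main
import Pool.Agent.H853.OP.Res

/-!
# Elliptic automorphisms and the density of the primes
-/

set_option autoImplicit false
set_option linter.unusedSectionVars false

namespace Pool.Agent.H853.EL

open Module Polynomial Pool.Agent.Y114.TF Pool.Agent.Y114.GF Pool.Agent.Y114.MU
  Pool.Agent.Y114.RM Pool.Agent.H204R3.GP Pool.Agent.NH34.BD Pool.Agent.H853.SR
  Pool.Agent.H853.OS Pool.Agent.K1H15.BS Pool.Agent.H853.CC Pool.Agent.H853.G2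
  Pool.Agent.W522.C Pool.Agent.W569.FM Pool.Agent.W571.FM Pool.Agent.Y115.R Pool.Agent.Y115.T
  Pool.Agent.Y115.Chi

section loc

variable {Γ : Type} [Group Γ] [TopologicalSpace Γ] [IsTopologicalGroup Γ] [CompactSpace Γ]
  {ι : Type} [Fintype ι] [DecidableEq ι] {n : ι → ℕ} {ℓ : ℕ} [Fact ℓ.Prime]

theorem semisimple_elliptic (ρ : Reps Γ n ℓ) (hρ : Conts ρ) (𝔤 : EndSpace n ℓ)
    (h𝔤 : Motivic ρ 𝔤) (γ : Γ) (r : ℕ)
    (hr : IndependentEigenvalues ρ (AlgebraicClosure ℚ_[ℓ]) γ r) (hrk : HasRankLE 𝔤 r)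
    (σ : LocalAut ℓ) (hσ : EllipticAt ρ γ σ) : Semisimple ρ := by
  obtain ⟨j, hj⟩ := exists_j ℓ ℚ_[ℓ] ℚ (algebraMap ℚ ℚ_[ℓ]) (algebraMap ℚ ℂ)
  let _ : Algebra ℚ_[ℓ] ℂ := j.toAlgebra
  let φ : AlgebraicClosure ℚ_[ℓ] →ₐ[ℚ_[ℓ]] ℂ := IsAlgClosed.lift
  obtain ⟨z, hz, hind⟩ := hr
  obtain ⟨m, hm, hell⟩ := hσ
  refine ss_of_torsion inputs inputs2 ρ hρ 𝔤 h𝔤 γ (fun j => φ (z j)) (fun j => ?_) ?_ hrk
    fun L hLG hL => det_torsion ρ (fun X hX => IsMotivic.parts h𝔤 X (hLG hX)) hL σ hm hell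
  · obtain ⟨i, hi⟩ := hz j
    refine eigen_of_root ρ γ (i := i) ?_
    have h1 : aeval (φ (z j)) (LinearMap.charpoly (ρ i γ)) =
      φ (aeval (z j) (LinearMap.charpoly (ρ i γ))) := aeval_algHom_apply φ (z j) _
    rw [hi, map_zero] at h1
    exact h1
  · intro e he
    refine hind e (φ.toRingHom.injective ?_)
    have h1 : φ (∏ j, z j ^ e j) = ∏ j, φ (z j) ^ e j := by
      rw [map_prod]
      exact Finset.prod_congr rfl fun j _ => map_zpow₀ φ _ _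
    change φ (∏ j, z j ^ e j) = φ 1
    rw [h1, he, map_one]

theorem good_elliptic (ρ : Reps Γ n ℓ) (hρ : Conts ρ) (𝔤 : EndSpace n ℓ)
    (h𝔤 : Motivic ρ 𝔤) (γ : Γ) (r : ℕ)
    (hr : IndependentEigenvalues ρ (AlgebraicClosure ℚ_[ℓ]) γ r) (hrk : HasRankLE 𝔤 r)
    (σ : LocalAut ℓ) (hσ : EllipticAt ρ γ σ) : Good ρ 𝔤 := by
  have hss := semisimple_elliptic ρ hρ 𝔤 h𝔤 γ r hr hrk σ hσ
  refine ⟨hss, fun h => ?_, fun h => ?_⟩
  · rintro X hX Y ⟨Δ, hΔ, hY⟩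
    exact tate_comm (sumRep ρ) (fun m φ hφ => (h m φ).1 hφ X hX) hΔ hY
  · refine ((rank_main ρ hρ 𝔤 h𝔤 γ r hr hrk).1.2 ⟨hss, ?_⟩).2
    rintro P ⟨Δ, hΔ, hP⟩ X hX
    exact h X hX P ⟨Δ, hΔ, fun g hg => LinearMap.ext fun v => hP g hg v⟩

end loc

section lift

theorem iter_lift {L : IntermediateField ℚ ℂ} {Ω : Type} [Field Ω] (j : L →+* Ω) (σ : Ω → Ω)
    (τ : L → L) (h : ∀ x, σ (j x) = j (τ x)) (k : ℕ) (x : L) : σ^[k] (j x) = j (τ^[k] x) := by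
  induction k with
  | zero => rfl
  | succ k ih => rw [Function.iterate_succ_apply', ih, h, Function.iterate_succ_apply']

theorem norm_lift {L : IntermediateField ℚ ℂ} {Ω : Type} [Field Ω] (j : L →+* Ω) (σ : Ω → Ω)
    (τ : L → L) (h : ∀ x, σ (j x) = j (τ x)) (m : ℕ) (x : L) :
    normIter σ m (j x) = j (normIter τ m x) := by
  unfold normIter
  rw [map_prod]
  exact Finset.prod_congr rfl fun k _ => iter_lift j σ τ h k x

variable {Γ : Type} [Group Γ] {ι : Type} {n : ι → ℕ}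
  {ρ : ∀ (ℓ : ℕ) [Fact ℓ.Prime], Reps Γ n ℓ}

theorem elliptic_of_lift (e : Element ρ) (hP0 : ∀ i, e.P i ≠ 0) {τ : Aut e.field}
    (hτ : EllipticIn e.P τ) {ℓ : ℕ} [Fact ℓ.Prime] (hℓ : ℓ ∉ e.bad)
    (j : e.field →+* AlgebraicClosure ℚ_[ℓ]) (σ : LocalAut ℓ) (hσ : ∀ x, σ (j x) = j (τ x)) :
    EllipticAt (ρ ℓ) e.γ σ := by
  obtain ⟨m, hm, hell⟩ := hτ
  refine ⟨m, hm, fun i a b ha hb ha0 hb0 => ?_⟩
  have hroots : ∀ z : ℂ, aeval z (e.P i) = 0 → z ∈ e.field := fun z hz =>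
    IntermediateField.subset_adjoin ℚ _ ⟨i, hz⟩
  rw [e.charpoly ℓ hℓ i, aeval_map_rat] at ha hb
  obtain ⟨x, rfl, hx⟩ := exists_root j (hP0 i) (splits_of_roots hroots) ha
  obtain ⟨y, rfl, hy⟩ := exists_root j (hP0 i) (splits_of_roots hroots) hb
  have hC : ∀ x : e.field, aeval x (e.P i) = 0 → aeval (x : ℂ) (e.P i) = 0 := by
    intro x hx
    have h1 := aeval_hom (algebraMap e.field ℂ) x (e.P i)
    rw [hx, map_zero] at h1
    exact h1
  have hx0 : x ≠ 0 := by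
    rintro rfl
    exact ha0 (map_zero j)
  have hy0 : y ≠ 0 := by
    rintro rfl
    exact hb0 (map_zero j)
  obtain ⟨N, hN, h1⟩ := hell i x y (hC x hx) (hC y hy) hx0 hy0
  refine ⟨N, hN, ?_⟩
  rw [← map_div₀, norm_lift j σ τ hσ, ← map_pow, h1, map_one]

end lift

section density

variable {Γ : Type} [Group Γ] [TopologicalSpace Γ] [IsTopologicalGroup Γ] [CompactSpace Γ]
  {ι : Type} [Fintype ι] [DecidableEq ι] {n : ι → ℕ}
  {ρ : ∀ (ℓ : ℕ) [Fact ℓ.Prime], Reps Γ n ℓ} {𝔤 : ∀ (ℓ : ℕ) [Fact ℓ.Prime], EndSpace n ℓ}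

theorem field_galois (e : Element ρ) : FiniteDimensional ℚ e.field ∧
    @IsGalois ℚ _ e.field _ (IntermediateField.algebra' e.field) := by
  obtain ⟨Q, b, hb, hQ, hQ0, hfield⟩ := exists_SF e.P (ne_zero_of_char e.charpoly)
  have hfield' : e.field = SF (∏ i, Q i) := hfield
  rw [hfield']
  exact ⟨inferInstance, isGalois_trans _ _ (galSF _)⟩

theorem density (hρ : ∀ (ℓ : ℕ) [Fact ℓ.Prime], Conts (ρ ℓ))
    (h𝔤 : ∀ (ℓ : ℕ) [Fact ℓ.Prime], Motivic (ρ ℓ) (𝔤 ℓ)) (r : ℕ)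
    (hrk : ∀ (ℓ : ℕ) [Fact ℓ.Prime], HasRankLE (𝔤 ℓ) r) (e : Element ρ)
    (he : IndependentRoots r e.P) : GoodForDensity ρ 𝔤 (ellipticProportion e) := by
  classical
  have hP0 := ne_zero_of_char e.charpoly
  obtain ⟨hfin, hgal⟩ := field_galois e
  set T : Set (AG e.field) := {τ | EllipticIn e.P τ} with hT
  have h3 := density_stepV (J := T) (L := fun _ => e.field)
    (fun t => t.1) (fun _ => e.bad) e.field hfin hgal T.ncard (by
      refine Set.ncard_le_ncard ?_ (Set.toFinite _)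
      intro g hg
      exact ⟨⟨g, hg⟩, le_rfl, fun x hx => rfl⟩)
  have h4 : Nat.card (AG e.field) = Module.finrank ℚ e.field :=
    @IsGalois.card_aut_eq_finrank ℚ _ e.field _ (IntermediateField.algebra' e.field) hfin hgal
  have h5 : ellipticProportion e = T.ncard / Nat.card (AG e.field) := by
    rw [h4, ← Nat.card_coe_set_eq]
    rfl
  unfold GoodForDensity
  rw [h5]
  refine LowerDensity.mono h3 ?_
  rintro ℓ - ⟨hℓ, t, ht, hlift⟩
  have : Fact ℓ.Prime := ⟨hℓ⟩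
  obtain ⟨j, σ, hσ⟩ := hlift
  exact ⟨⟨hℓ⟩, good_elliptic (ρ ℓ) (hρ ℓ) (𝔤 ℓ) (h𝔤 ℓ) e.γ r
    (hasRank_of hP0 (e.charpoly ℓ ht) he) (hrk ℓ) σ (elliptic_of_lift e hP0 t.2 ht j σ hσ)⟩

/-- The complex conjugation is elliptic. -/
theorem exists_elliptic (e : Element ρ)
    (hpure : ∀ i, ∃ c : ℝ, ∀ z : ℂ, aeval z (e.P i) = 0 → ‖z‖ ^ 2 = c) :
    ∃ τ : AG e.field, EllipticIn e.P τ := by
  obtain ⟨hfin, hgal⟩ := field_galois e
  obtain ⟨τ, hτ⟩ := Pool.Agent.H853.OP.exists_restrict e.field hgal (algebraMap e.field ℂ)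
    (Complex.conjAe.toRingEquiv : ℂ ≃+* ℂ)
  refine ⟨τ, 2, two_pos, fun i x y hx hy hx0 hy0 => ⟨1, one_pos, ?_⟩⟩
  obtain ⟨c, hc⟩ := hpure i
  have h1 := hc x hx
  have h2 := hc y hy
  have h3 : ((τ (x / y) : e.field) : ℂ) = (starRingEnd ℂ) ((x / y : e.field) : ℂ) := (hτ (x / y)).symm
  rw [pow_one]
  apply Subtype.ext
  have h4 : ((normIter τ 2 (x / y) : e.field) : ℂ) =
      ((x / y : e.field) : ℂ) * ((τ (x / y) : e.field) : ℂ) := by
    unfold normIter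
    rw [Finset.prod_range_succ, Finset.prod_range_one]
    rfl
  have h5 : ((x / y : e.field) : ℂ) = (x : ℂ) / (y : ℂ) := rfl
  have hy1 : ‖(y : ℂ)‖ ≠ 0 := by
    rw [norm_ne_zero_iff]
    intro h
    exact hy0 (Subtype.ext h)
  have h6 : ‖(x : ℂ)‖ ^ 2 = ‖(y : ℂ)‖ ^ 2 := h1.trans h2.symm
  change ((normIter τ 2 (x / y) : e.field) : ℂ) = 1
  rw [h4, h3, Complex.mul_conj, Complex.normSq_eq_norm_sq, h5, norm_div, div_pow, h6,
    div_self (pow_ne_zero 2 hy1), Complex.ofReal_one]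

theorem proportion_ge (e : Element ρ)
    (hpure : ∀ i, ∃ c : ℝ, ∀ z : ℂ, aeval z (e.P i) = 0 → ‖z‖ ^ 2 = c) :
    1 / ((∑ i, n i).factorial : ℝ) ≤ ellipticProportion e := by
  obtain ⟨hfin, hgal⟩ := field_galois e
  obtain ⟨τ, hτ⟩ := exists_elliptic e hpure
  have hfin' : Finite {τ : Aut e.field // EllipticIn e.P τ} := by
    have : Finite (Aut e.field) := by
      change Finite (AG e.field)
      infer_instance
    exact Subtype.finite
  have h1 : 0 < Nat.card {τ : Aut e.field // EllipticIn e.P τ} := by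
    have : Nonempty {τ : Aut e.field // EllipticIn e.P τ} := ⟨⟨τ, hτ⟩⟩
    exact Nat.card_pos
  have h4 : Nat.card (AG e.field) = Module.finrank ℚ e.field :=
    @IsGalois.card_aut_eq_finrank ℚ _ e.field _ (IntermediateField.algebra' e.field) hfin hgal
  have h2 : Module.finrank ℚ e.field ≤ (∑ i, n i).factorial := by
    rw [← h4]
    have h5 : FiniteDimensional ℚ
      (IntermediateField.adjoin ℚ {z : ℂ | ∃ i, aeval z (e.P i) = 0}) := hfin
    have h6 := gsz_field_le e.P (ne_zero_of_char e.charpoly)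
    rw [Finset.sum_congr rfl fun i _ => natDegree_P e i] at h6
    exact h6
  have h3 : 0 < Module.finrank ℚ e.field := Module.finrank_pos
  unfold ellipticProportion
  have h5 : (1 : ℝ) ≤ Nat.card {τ : Aut e.field // EllipticIn e.P τ} := by exact_mod_cast h1
  have h6 : (0 : ℝ) < Module.finrank ℚ e.field := by exact_mod_cast h3
  have h7 : (Module.finrank ℚ e.field : ℝ) ≤ ((∑ i, n i).factorial : ℝ) := by exact_mod_cast h2
  exact div_le_div₀ (by linarith) h5 h6 h7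

end density

end Pool.Agent.H853.EL
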