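import Pool.Agent.H853.EL.Sys
import Pool.Agent.H853.OS.Fin
import Pool.Agent.H853.RG.Bas
import Pool.Graph.R_pool_sql_team_seeded_3dad9d7b.NH34.BD.Gal

/-!
# Semisimplicity at a prime at which a Frobenius torus of maximal rank is elliptic
-/

set_option autoImplicit false
set_option linter.unusedSectionVars false

namespace Pool.Agent.H853.EL

open Module Polynomial TensorProduct Pool.Agent.TH118.SG Pool.Agent.Y114.RM Pool.Agent.Y212.RM
  Pool.Agent.Y86.RM Pool.Agent.Y914.RM Pool.Agent.NH34.BD Pool.Agent.Y114.MU Pool.Agent.H204R3.GP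
  Pool.Agent.H853.SR Pool.Agent.Y114.TF Pool.Agent.Y114.GF Pool.Agent.H853.CC
  Pool.Agent.H853.RG

section mult

theorem torsion_prod {A M : Type} [CommMonoid M] (f : A → M) (s : Multiset A)
    (h : ∀ a ∈ s, ∃ N : ℕ, 0 < N ∧ f a ^ N = 1) : ∃ N : ℕ, 0 < N ∧ (s.map f).prod ^ N = 1 := by
  induction s using Multiset.induction with
  | empty => exact ⟨1, one_pos, by simp⟩
  | cons a s ih =>
    obtain ⟨N, hN, h1⟩ := ih fun b hb => h b (Multiset.mem_cons_of_mem hb)
    obtain ⟨N', hN', h2⟩ := h a (Multiset.mem_cons_self a s)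
    refine ⟨N * N', Nat.mul_pos hN hN', ?_⟩
    rw [Multiset.map_cons, Multiset.prod_cons, mul_pow, mul_comm N N', pow_mul, h2, one_pow,
      one_mul, mul_comm N' N, pow_mul, h1, one_pow]

end mult

section iter

variable {K Ω : Type} [Field K] [Field Ω] [Algebra K Ω] (σ : Ω ≃ₐ[K] Ω)

theorem iter_alg (k : ℕ) (x : K) : (⇑σ)^[k] (algebraMap K Ω x) = algebraMap K Ω x := by
  induction k with
  | zero => rfl
  | succ k ih => rw [Function.iterate_succ_apply', ih, σ.commutes]

theorem iter_multiset_prod (k : ℕ) (s : Multiset Ω) :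
    (⇑σ)^[k] s.prod = (s.map fun x => (⇑σ)^[k] x).prod := by
  induction s using Multiset.induction with
  | empty =>
    rw [Multiset.map_zero, Multiset.prod_zero]
    have := iter_alg σ k 1
    rwa [map_one] at this
  | cons a s ih =>
    rw [Multiset.map_cons, Multiset.prod_cons, Multiset.prod_cons, ← ih]
    have hmul : ∀ (k : ℕ) (x y : Ω), (⇑σ)^[k] (x * y) = (⇑σ)^[k] x * (⇑σ)^[k] y := by
      intro k
      induction k with
      | zero => intro x y; rfl
      | succ k ih2 =>
        intro x y
        rw [Function.iterate_succ_apply', ih2, map_mul, Function.iterate_succ_apply',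
          Function.iterate_succ_apply']
    exact hmul k a s.prod

theorem norm_multiset (m : ℕ) (s : Multiset Ω) :
    normIter σ m s.prod = (s.map (normIter σ m)).prod := by
  unfold normIter
  rw [Multiset.prod_map_prod]
  exact Finset.prod_congr rfl fun k _ => iter_multiset_prod σ k s

theorem norm_alg (m : ℕ) (x : K) : normIter σ m (algebraMap K Ω x) = algebraMap K Ω x ^ m := by
  unfold normIter
  rw [Finset.prod_congr rfl fun k _ => iter_alg σ k x, Finset.prod_const, Finset.card_range]

end iter

section det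

variable {K : Type} [Field K] {E : Type} [AddCommGroup E] [Module K E] [FiniteDimensional K E]

theorem det_roots {Ω : Type} [Field Ω] [Algebra K Ω] [IsAlgClosed Ω] (L : Submodule K E)
    (T : End K E) (h : ∀ X ∈ L, T X ∈ L) :
    algebraMap K Ω (detOn L T h) = ((chOn L T h).map (algebraMap K Ω)).roots.prod := by
  have h1 : detOn L T h = (-1) ^ finrank K L * (chOn L T h).coeff 0 :=
    LinearMap.det_eq_sign_charpoly_coeff (T.restrict h)
  have hmon : (chOn L T h).Monic := LinearMap.charpoly_monic _
  have h2 := (IsAlgClosed.splits ((chOn L T h).map (algebraMap K Ω))).coeff_zero_eq_prod_roots_of_monic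
    (hmon.map _)
  have h3 : (chOn L T h).natDegree = finrank K L := LinearMap.charpoly_natDegree _
  rw [h1, map_mul, map_pow, map_neg, map_one, ← coeff_map, h2, natDegree_map, h3, ← mul_assoc,
    ← mul_pow, neg_one_mul, neg_neg, one_pow, one_mul]

theorem chOn_ne (L : Submodule K E) (T : End K E) (h : ∀ X ∈ L, T X ∈ L) : chOn L T h ≠ 0 :=
  (LinearMap.charpoly_monic _).ne_zero

end det

end Pool.Agent.H853.EL
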