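import Pool.Agent.H853.EL.Loc

/-!
# Semisimplicity at a prime at which a Frobenius torus of maximal rank is elliptic
-/

set_option autoImplicit false
set_option linter.unusedSectionVars false

namespace Pool.Agent.H853.EL

open Module Polynomial TensorProduct Pool.Agent.TH118.SG Pool.Agent.Y114.RM Pool.Agent.Y212.RM
  Pool.Agent.Y86.RM Pool.Agent.Y914.RM Pool.Agent.NH34.BD Pool.Agent.Y114.MU Pool.Agent.H204R3.GP
  Pool.Agent.H853.SR Pool.Agent.Y114.TF Pool.Agent.Y114.GF Pool.Agent.H853.CC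
  Pool.Agent.H853.RG

section loc

variable {p : ℕ} [Fact p.Prime] {ι : Type} [Fintype ι] [DecidableEq ι] {n : ι → ℕ} {Γ : Type}
  [Group Γ] (ρ : ∀ i, Representation ℚ_[p] Γ (Fin (n i) → ℚ_[p]))

/-- The roots of the characteristic polynomial of the conjugation by `γ` on a stable subspace of `G` are
quotients of eigenvalues on the same summand. -/
theorem root_quot [Algebra ℚ_[p] ℂ] {L : Submodule ℚ_[p] (End ℚ_[p] (∀ i, Fin (n i) → ℚ_[p]))}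
    (hparts : ∀ X ∈ L, ∀ x i, X x i = X (Pi.single i (x i)) i) {γ : Γ}
    (hL : ∀ X ∈ L, AdE (sumRep ρ γ) (sumRep ρ γ⁻¹) X ∈ L) {β : AlgebraicClosure ℚ_[p]}
    (hβ : aeval β (chOn L (AdE (sumRep ρ γ) (sumRep ρ γ⁻¹)) hL) = 0) :
    ∃ i, ∃ a b : AlgebraicClosure ℚ_[p], aeval a (ρ i γ).charpoly = 0 ∧
      aeval b (ρ i γ).charpoly = 0 ∧ a ≠ 0 ∧ b ≠ 0 ∧ β = a / b := by
  let ε : AlgebraicClosure ℚ_[p] →ₐ[ℚ_[p]] ℂ := IsAlgClosed.lift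
  have h1 : sumRep ρ γ * sumRep ρ γ⁻¹ = 1 := rho_mul_inv (sumRep ρ) γ
  have h2 : sumRep ρ γ⁻¹ * sumRep ρ γ = 1 := rho_inv_mul (sumRep ρ) γ
  have hst := AdE_bcS (C := ℂ) hL
  have hne : (chOn L (AdE (sumRep ρ γ) (sumRep ρ γ⁻¹)) hL).map (algebraMap ℚ_[p] ℂ) ≠ 0 :=
    (Polynomial.map_ne_zero_iff (algebraMap ℚ_[p] ℂ).injective).2 (chOn_ne L _ hL)
  have h3 : 0 < ((chOn L (AdE (sumRep ρ γ) (sumRep ρ γ⁻¹)) hL).map
      (algebraMap ℚ_[p] ℂ)).rootMultiplicity (ε β) := by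
    rw [rootMultiplicity_pos hne, IsRoot.def, eval_map]
    have h4 : aeval (ε β) (chOn L (AdE (sumRep ρ γ) (sumRep ρ γ⁻¹)) hL) = 0 := by
      rw [aeval_algHom_apply, hβ, map_zero]
    rw [aeval_def] at h4
    exact h4
  rw [← charpoly_bc (C := ℂ) L _ hL (AdE ((sumRep ρ γ).baseChange ℂ) ((sumRep ρ γ⁻¹).baseChange ℂ))
    (fun X => by
      rw [AdE_apply, AdE_apply, ← LinearMap.baseChange_mul, ← LinearMap.baseChange_mul]) hst,
    ← finrank_gen (bcS ℂ L) _ hst (ε β)] at h3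
  have h4 : (bcS ℂ L ⊓ (AdE ((sumRep ρ γ).baseChange ℂ)
      ((sumRep ρ γ⁻¹).baseChange ℂ)).maxGenEigenspace (ε β) :
        Submodule ℂ (End ℂ (ℂ ⊗[ℚ_[p]] (∀ i, Fin (n i) → ℚ_[p])))) ≠ ⊥ := by
    intro h0
    rw [h0, finrank_bot] at h3
    exact lt_irrefl _ h3
  obtain ⟨X, hX, hX0⟩ := Submodule.exists_mem_ne_zero_of_ne_bot h4
  obtain ⟨i, b, hb0, hb, ha, hβ0⟩ := exists_quot (gi := fun i => ρ i γ) h1 h2 (fun _ _ => rfl) hL
    hparts hX.1 hX0 hX.2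
  have hroot : ∀ x : ℂ, aeval x (ρ i γ).charpoly = 0 →
      ∃ y : AlgebraicClosure ℚ_[p], ε y = x ∧ aeval y (ρ i γ).charpoly = 0 := by
    intro x hx
    have h1 : x ∈ (((ρ i γ).charpoly.map (algebraMap ℚ_[p] (AlgebraicClosure ℚ_[p]))).map
        (ε : AlgebraicClosure ℚ_[p] →+* ℂ)).roots := by
      rw [Polynomial.map_map, mem_roots ((Polynomial.map_ne_zero_iff (RingHom.injective _)).2
        (LinearMap.charpoly_monic (ρ i γ)).ne_zero), IsRoot.def, eval_map]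
      rw [aeval_def] at hx
      have h2 : (ε : AlgebraicClosure ℚ_[p] →+* ℂ).comp
          (algebraMap ℚ_[p] (AlgebraicClosure ℚ_[p])) = algebraMap ℚ_[p] ℂ :=
        RingHom.ext fun x => ε.commutes x
      rw [h2]
      exact hx
    have hs : ((ρ i γ).charpoly.map (algebraMap ℚ_[p] (AlgebraicClosure ℚ_[p]))).Splits :=
      IsAlgClosed.splits _
    rw [hs.roots_map] at h1
    obtain ⟨y, hy, rfl⟩ := Multiset.mem_map.1 h1
    refine ⟨y, rfl, ?_⟩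
    have h2 := (mem_roots'.1 hy).2
    rw [IsRoot.def, eval_map] at h2
    exact h2
  obtain ⟨y, hy, hyq⟩ := hroot b hb
  obtain ⟨x, hx, hxq⟩ := hroot _ ha
  have hy0 : y ≠ 0 := by
    rintro rfl
    exact hb0 (by rw [← hy, map_zero])
  have hx0 : x ≠ 0 := by
    rintro rfl
    rw [map_zero] at hx
    rcases mul_eq_zero.1 hx.symm with h | h
    · exact hβ0 h
    · exact hb0 h
  refine ⟨i, x, y, hxq, hyq, hx0, hy0, ?_⟩
  apply ε.injective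
  have h5 : ε (x / y) = ε x / ε y := map_div₀ ε x y
  have h6 : ε β = ε (x / y) := by
    rw [h5, hx, hy, mul_div_assoc, div_self hb0, mul_one]
  exact h6

/-- **The determinants are roots of unity.** -/
theorem det_torsion [Algebra ℚ_[p] ℂ]
    {L : Submodule ℚ_[p] (End ℚ_[p] (∀ i, Fin (n i) → ℚ_[p]))}
    (hparts : ∀ X ∈ L, ∀ x i, X x i = X (Pi.single i (x i)) i) {γ : Γ}
    (hL : ∀ X ∈ L, AdE (sumRep ρ γ) (sumRep ρ γ⁻¹) X ∈ L)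
    (σ : AlgebraicClosure ℚ_[p] ≃ₐ[ℚ_[p]] AlgebraicClosure ℚ_[p]) {m : ℕ} (hm : 0 < m)
    (hell : ∀ i, ∀ a b : AlgebraicClosure ℚ_[p], aeval a (ρ i γ).charpoly = 0 →
      aeval b (ρ i γ).charpoly = 0 → a ≠ 0 → b ≠ 0 →
        ∃ N : ℕ, 0 < N ∧ normIter σ m (a / b) ^ N = 1) :
    ∃ M : ℕ, 0 < M ∧ (algebraMap ℚ_[p] ℂ
      (detOn L (AdE (sumRep ρ γ) (sumRep ρ γ⁻¹)) hL)) ^ M = 1 := by
  set F := chOn L (AdE (sumRep ρ γ) (sumRep ρ γ⁻¹)) hL with hF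
  set d := detOn L (AdE (sumRep ρ γ) (sumRep ρ γ⁻¹)) hL with hd
  have h1 : algebraMap ℚ_[p] (AlgebraicClosure ℚ_[p]) d =
      (F.map (algebraMap ℚ_[p] (AlgebraicClosure ℚ_[p]))).roots.prod := det_roots L _ hL
  obtain ⟨N, hN, h2⟩ := torsion_prod (normIter (⇑σ) m)
    (F.map (algebraMap ℚ_[p] (AlgebraicClosure ℚ_[p]))).roots (fun β hβ => by
      have h3 : aeval β F = 0 := by
        have h4 := (mem_roots'.1 hβ).2
        rw [IsRoot.def, eval_map] at h4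
        exact h4
      obtain ⟨i, a, b, ha, hb, ha0, hb0, rfl⟩ := root_quot ρ hparts hL h3
      exact hell i a b ha hb ha0 hb0)
  rw [← norm_multiset, ← h1, norm_alg, ← pow_mul, ← map_pow] at h2
  refine ⟨m * N, Nat.mul_pos hm hN, ?_⟩
  have h3 : d ^ (m * N) = 1 := by
    apply (algebraMap ℚ_[p] (AlgebraicClosure ℚ_[p])).injective
    rw [h2, map_one]
  rw [← map_pow, h3, map_one]

end loc

section ss

variable {ι : Type} [Fintype ι] [DecidableEq ι] {n : ι → ℕ} {ℓ : ℕ} [hℓ : Fact ℓ.Prime]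
  {Γ : Type} [Group Γ] [TopologicalSpace Γ] [IsTopologicalGroup Γ] [CompactSpace Γ]

/-- **Semisimplicity from one element of maximal rank with torsion determinants.** -/
theorem ss_of_torsion [Algebra ℚ_[ℓ] ℂ] (h : Inputs) (h2 : Inputs2) (ρ : Reps Γ n ℓ)
    (hρ : Conts ρ) (𝔤 : Submodule ℚ_[ℓ] (End ℚ_[ℓ] (∀ i, Fin (n i) → ℚ_[ℓ])))
    (h𝔤 : IsMotivic ρ 𝔤) (γ : Γ) {r : ℕ} (z : Fin r → ℂ)
    (hz : ∀ i, End.HasEigenvalue ((sumRep ρ γ).baseChange ℂ) (z i))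
    (hind : ∀ e : Fin r → ℤ, ∏ i, z i ^ e i = 1 → e = 0) (hrk : RankAtMost 𝔤 r)
    (htor : ∀ (L : Submodule ℚ_[ℓ] (End ℚ_[ℓ] (∀ i, Fin (n i) → ℚ_[ℓ]))), L ≤ 𝔤 →
      ∀ hL : (∀ X ∈ L, AdE (sumRep ρ γ) (sumRep ρ γ⁻¹) X ∈ L), ∃ m : ℕ, 0 < m ∧
        (algebraMap ℚ_[ℓ] ℂ (detOn L (AdE (sumRep ρ γ) (sumRep ρ γ⁻¹)) hL)) ^ m = 1) :
    FiniteIndexSemisimple (sumRep ρ) := by
  obtain ⟨L, hL, hLie, hAd, -⟩ := h.lie ℚ_[ℓ] (∀ i, Fin (n i) → ℚ_[ℓ]) _ (sumRep ρ)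
  have hLG : L ≤ 𝔤 := fun X hX => h𝔤.algebraic X fun m φ hφ => ((hL X).1 hX).2 m φ (h𝔤.tate m φ hφ)
  have hcen := torus_cen (sumRep ρ) h h2.jord h2.cartan hL hLG h𝔤.bracket h𝔤.nondeg h𝔤.algebraic
    hrk γ z hz hind
  have htr := torus_local (sumRep ρ) h hL hLie hAd γ (htor L hLG (hAd γ))
  obtain ⟨hND, hproj⟩ := exists_proj h h2 hLie hLG h𝔤.bracket h𝔤.nondeg
    (tor_le (sumRep ρ) h hL γ) (tor_diag _) (tor_comm _) hcen htr
  obtain ⟨Δ', hΔ', hcomm⟩ := h2.tfr ℓ ι n _ ρ hρ (comm L) (comm_conj (sumRep ρ) hAd)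
    (comm_order (sumRep ρ) h h2 hL)
  intro Δ hΔ U hU
  obtain ⟨P, hP1, hP2, hP3⟩ := hproj U fun X hX => ((hL X).1 hX).1 U ⟨Δ, hΔ, hU⟩
  exact Pool.Agent.Y41.RM.exists_compl_of_commute (sumRep ρ) Δ Δ' hΔ' U hU P hP2 hP3
    fun s hs => (hcomm s hs P hP1).symm

end ss

end Pool.Agent.H853.EL
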