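import Pool.Agent.H853.EL.PF
import Pool.Agent.H853.EL.Fin
import Pool.Graph.R_seed8.R931.IR.Rel
import Pool.Graph.R_seed8.R931.IR.Frob

/-!
# Frobenius elements of maximal rank near an element of maximal rank
-/

set_option autoImplicit false
set_option linter.unusedSectionVars false

namespace Pool.Agent.H853.EL

open Module Polynomial Pool.Agent.Y114.TF Pool.Agent.Y114.RM Pool.Agent.H853.OS
  Pool.Agent.R931.IR Pool.Agent.H853.CC

variable {Γ : Type} [Group Γ] [TopologicalSpace Γ] [IsTopologicalGroup Γ] [CompactSpace Γ]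
  {ι : Type} [Fintype ι] [DecidableEq ι] {n : ι → ℕ} {ρ : ∀ (ℓ : ℕ) [Fact ℓ.Prime], Reps Γ n ℓ}

/-- **Serre's theorem on maximal Frobenius tori** (the proof of the library, for dense sets). -/
theorem exists_maximal {w : ι → ℤ} {c : ℕ} {ℓ : ℕ} [Fact ℓ.Prime] (hρ : Conts (ρ ℓ))
    (hD : DensePure ρ w c ℓ) (γ : Γ) (r : ℕ)
    (hr : Pool.Agent.H853.OS.IndependentEigenvalues (ρ ℓ) (AlgebraicClosure ℚ_[ℓ]) γ r) :
    ∃ e : PureElement ρ w c, ℓ ∉ e.bad ∧ IndependentRoots r e.P := by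
  obtain ⟨z, hz, hind⟩ := hr
  choose κ hκ using hz
  have hz' : ∀ k, aeval (z k) (ρ ℓ (κ k) γ).charpoly = 0 := hκ
  have hz0 : ∀ k, (z k : PadicAlgCl ℓ) ≠ 0 := fun k =>
    root_ne_zero (A := ρ ℓ (κ k) γ) (B := ρ ℓ (κ k) γ⁻¹) (by
      rw [← map_mul, mul_inv_cancel, map_one]) (hz' k)
  set D : ℕ := ∑ i, n i with hDdef
  set E := exs (fun k => w (κ k)) (bd (fun k => w (κ k)) c D) with hE
  obtain ⟨ε, hε, hrad⟩ := exists_radius (z : Fin r → PadicAlgCl ℓ) hz0 hind E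
    (zero_notMem_exs _ _) (M := (2 * D ^ r).factorial) (Nat.factorial_pos _)
  have hO : IsOpen (⋂ k, {g : Γ | ‖aeval (z k : PadicAlgCl ℓ) (ρ ℓ (κ k) g).charpoly‖ <
      ε ^ n (κ k)}) := by
    apply isOpen_iInter_of_finite
    intro k
    exact isOpen_lt (continuous_eval (ρ ℓ (κ k)) (hρ (κ k)) (z k)) continuous_const
  obtain ⟨γ', ⟨e, he, rfl⟩, hγ'⟩ := hD.exists_mem_open hO ⟨γ, Set.mem_iInter.2 fun k => by
    show ‖aeval (z k : PadicAlgCl ℓ) (ρ ℓ (κ k) γ).charpoly‖ < ε ^ n (κ k)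
    rw [hz' k, norm_zero]
    positivity⟩
  have h1 : ∀ k, ∃ y : PadicAlgCl ℓ, IsRootOf (ρ ℓ (κ k) e.γ).charpoly y ∧ ‖y - z k‖ < ε :=
    fun k => exists_root_near _ (z k) hε (Set.mem_iInter.1 hγ' k)
  choose y hy hyz using h1
  have hE' := hrad y hyz
  have hP0 : ∀ i, e.P i ≠ 0 := ne_zero_of_char e.charpoly
  obtain ⟨e₁, e₂, -⟩ := exists_pair (PadicAlgCl ℓ)
  have h2 : ∀ k, ∃ x : AlgebraicClosure ℚ, e₂ x = y k ∧ aeval x (e.P (κ k)) = 0 := fun k =>
    exists_root e₂ (hP0 _) (IsAlgClosed.splits _) (by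
      have h3 : aeval (y k) (ρ ℓ (κ k) e.γ).charpoly = 0 := hy k
      rw [e.charpoly ℓ he (κ k), aeval_map_rat] at h3
      exact h3)
  choose x hx hxP using h2
  have hroot : ∀ k, aeval (e₁ (x k)) (e.P (κ k)) = 0 := fun k => by
    rw [aeval_hom, hxP, map_zero]
  refine ⟨e, he, fun k => e₁ (x k), fun k => ⟨κ k, hroot k⟩, fun e' he' => ?_⟩
  by_contra hne
  obtain ⟨e'', he'', h3⟩ := relation_complex (fun k => w (κ k)) c (D := D) e.prime
    (fun k => e.P (κ k)) (fun k => e₁ (x k)) (fun k => ⟨hP0 _, by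
      rw [natDegree_P e.toElement (κ k), hDdef]
      exact Finset.single_le_sum (f := n) (fun _ _ => Nat.zero_le _) (Finset.mem_univ _)⟩)
    (fun k b hb => e.pure _ b hb) (fun k b hb => e.integral _ b hb) hroot ⟨e', hne, he'⟩
  apply hE' e'' he''
  have h4 : e₁ ((∏ k, x k ^ e'' k) ^ (2 * D ^ r).factorial) = 1 := by
    rw [map_pow, map_prod, ← h3]
    congr 1
    exact Finset.prod_congr rfl fun k _ => map_zpow₀ e₁ _ _
  have h5 : (∏ k, x k ^ e'' k) ^ (2 * D ^ r).factorial = 1 :=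
    e₁.injective (h4.trans (map_one e₁).symm)
  have h6 : e₂ ((∏ k, x k ^ e'' k) ^ (2 * D ^ r).factorial) =
      (∏ k, y k ^ e'' k) ^ (2 * D ^ r).factorial := by
    rw [map_pow, map_prod]
    congr 1
    exact Finset.prod_congr rfl fun k _ => by rw [map_zpow₀, hx k]
  rw [← h6, h5, map_one]

end Pool.Agent.H853.EL
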