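import Pool.Agent.H853.EL.Sys

/-!
# Frobenius elements of degree one: definitions
-/

set_option autoImplicit false

namespace Pool.Agent.H853.EL

open Module Polynomial Pool.Agent.Y114.TF Pool.Agent.Y114.RM Pool.Agent.H853.OS

variable {Γ : Type} [Group Γ] {ι : Type} {n : ι → ℕ}
  (ρ : ∀ (ℓ : ℕ) [Fact ℓ.Prime], Reps Γ n ℓ)

/-- An element (a Frobenius element at a place of degree one above the prime number `p`) which acts, for
all `ℓ` outside a finite set, on the `i`-th summand with the same characteristic polynomial `P i` with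
rational coefficients; for all complex roots `z` of `P i`, `|z| ^ 2 = p ^ (w i)`, and `p ^ c * z` is an
algebraic integer. -/
structure PureElement (w : ι → ℤ) (c : ℕ) extends Element ρ where
  /-- the prime number -/
  p : ℕ
  prime : p.Prime
  pure : ∀ i, ∀ z : ℂ, aeval z (P i) = 0 → ‖z‖ ^ 2 = (p : ℝ) ^ w i
  integral : ∀ i, ∀ z : ℂ, aeval z (P i) = 0 → IsIntegral ℤ ((p : ℂ) ^ c * z)

/-- The elements as in `PureElement`, with a finite set of exceptional primes which does not contain
`ℓ`, are dense in `Γ`. -/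
def DensePure [TopologicalSpace Γ] (w : ι → ℤ) (c : ℕ) (ℓ : ℕ) : Prop :=
  Dense {γ : Γ | ∃ e : PureElement ρ w c, ℓ ∉ e.bad ∧ e.γ = γ}

end Pool.Agent.H853.EL
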