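import Pool.Agent.H853.OS.Sys

/-!
# Elliptic automorphisms: definitions
-/

set_option autoImplicit false

namespace Pool.Agent.H853.EL

open Module Polynomial Pool.Agent.Y114.TF Pool.Agent.Y114.RM Pool.Agent.H853.OS

section fields

/-- The product of the images `x, σ x, σ (σ x), …` of `x` under the first `m` iterates of `σ`. -/
def normIter {Ω : Type} [Field Ω] (σ : Ω → Ω) (m : ℕ) (x : Ω) : Ω :=
  ∏ k ∈ Finset.range m, σ^[k] x

/-- `x` is a root of unity. -/
def Torsion {Ω : Type} [Field Ω] (x : Ω) : Prop := ∃ N : ℕ, 0 < N ∧ x ^ N = 1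

/-- The automorphism `τ` of the subfield `L` of `ℂ` is elliptic for the polynomials `P i`: for some
`m > 0` and all quotients `x / y` of two nonzero roots in `L` of the same polynomial the product of the
images of `x / y` under `1, τ, …, τ ^ (m - 1)` is a root of unity. -/
def EllipticIn {ι : Type} {L : IntermediateField ℚ ℂ} (P : ι → ℚ[X]) (τ : Aut L) : Prop :=
  ∃ m : ℕ, 0 < m ∧ ∀ i, ∀ x y : L, aeval (x : ℂ) (P i) = 0 → aeval (y : ℂ) (P i) = 0 → x ≠ 0 →
    y ≠ 0 → Torsion (normIter τ m (x / y))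

end fields

section general

variable {k : Type} [Field k] {V : Type} [AddCommGroup V] [Module k V] {Γ : Type} [Group Γ]
  (ρ : Representation k Γ V)

/-- `X` commutes with all Tate endomorphisms: with all endomorphisms of `V` which commute with a
subgroup of finite index of `Γ`. -/
def CommutesWithTate (X : End k V) : Prop :=
  ∀ Y : End k V, (∃ Δ : Subgroup Γ, Δ.FiniteIndex ∧ ∀ γ ∈ Δ, Y * ρ γ = ρ γ * Y) → X * Y = Y * X

/-- All elements of `𝔤` commute with all Tate endomorphisms. -/
def AllCommute (𝔤 : Submodule k (End k V)) : Prop := ∀ X ∈ 𝔤, CommutesWithTate ρ X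

end general

section defs

variable {Γ : Type} [Group Γ] {ι : Type} {n : ι → ℕ}

section one

variable {ℓ : ℕ} [Fact ℓ.Prime] (ρ : Reps Γ n ℓ) (𝔤 : EndSpace n ℓ)

/-- The automorphisms of the algebraic closure of `ℚ_ℓ` over `ℚ_ℓ`. -/
abbrev LocalAut (ℓ : ℕ) [Fact ℓ.Prime] : Type :=
  AlgebraicClosure ℚ_[ℓ] ≃ₐ[ℚ_[ℓ]] AlgebraicClosure ℚ_[ℓ]

/-- `σ` is elliptic for the eigenvalues of `γ`: for some `m > 0` and all quotients `a / b` of two
eigenvalues of `γ` on the same summand the product of the images of `a / b` under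
`1, σ, …, σ ^ (m - 1)` is a root of unity. -/
def EllipticAt (γ : Γ) (σ : LocalAut ℓ) : Prop :=
  ∃ m : ℕ, 0 < m ∧ ∀ i, ∀ a b : AlgebraicClosure ℚ_[ℓ], aeval a (ρ i γ).charpoly = 0 →
    aeval b (ρ i γ).charpoly = 0 → a ≠ 0 → b ≠ 0 → Torsion (normIter σ m (a / b))

/-- The Tate conjecture for endomorphisms: `𝔤` commutes with all Tate endomorphisms. -/
def TateForEndomorphisms : Prop := AllCommute (sumRep ρ) 𝔤

/-- The representation is semisimple, and the Tate tensors are those killed by `𝔤` if and only if the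
Tate endomorphisms commute with `𝔤`. -/
def Good : Prop := Semisimple ρ ∧ (TateTensorsOf ρ 𝔤 ↔ TateForEndomorphisms ρ 𝔤)

end one

variable (ρ : ∀ (ℓ : ℕ) [Fact ℓ.Prime], Reps Γ n ℓ) (𝔤 : ∀ (ℓ : ℕ) [Fact ℓ.Prime], EndSpace n ℓ)

/-- `Good` holds for a set of primes of lower density at least `δ`. -/
def GoodForDensity (δ : ℝ) : Prop :=
  Pool.Agent.W522.C.LowerDensity {ℓ | ∃ _ : Fact ℓ.Prime, Good (ρ ℓ) (𝔤 ℓ)} δ

variable {ρ}

/-- The number of the elliptic automorphisms of the field generated by the roots of the polynomials of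
`e`, divided by the degree of this field. -/
noncomputable def ellipticProportion (e : Element ρ) : ℝ :=
  Nat.card {τ : Aut e.field // EllipticIn e.P τ} / finrank ℚ e.field

end defs

end Pool.Agent.H853.EL
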